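import Pool.Agent.Run7.h77.RO.Defs

/-!
# Piece DB of project RO (helper77, MP_e6c71b_co)
-/

set_option autoImplicit false

namespace Run7.h298.RO

open Run7.h77.RO

lemma fc {s : Finset ℕ} {P Q : ℕ → Prop} [DecidablePred P] [DecidablePred Q]
    (h : ∀ y ∈ s, P y ↔ Q y) : (s.filter P).card = (s.filter Q).card := by
  rw [Finset.filter_congr h]

lemma Hn_symm {w : ℕ} (H : SimpleGraph (Fin w)) (x y : ℕ) : Hn H x y ↔ Hn H y x :=
  ⟨fun ⟨a, b, h⟩ => ⟨b, a, h.symm⟩, fun ⟨a, b, h⟩ => ⟨b, a, h.symm⟩⟩

open Classical in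
lemma cnt_zero {p B w v : ℕ} {H : SimpleGraph (Fin w)} {k k' : Kd p} {x : ℕ}
    (h : ∀ z, ¬ A2 B w v H k x k' z) : cnt B w v H k x k' = 0 := by
  unfold cnt
  rw [Finset.card_eq_zero, Finset.filter_eq_empty_iff]
  exact fun z _ => h z

open Classical in
/-- intervals -/
lemma cnt_ge {p B w v : ℕ} {H : SimpleGraph (Fin w)} {k k' : Kd p} {x : ℕ} (n : ℕ)
    (h : ∀ z, A2 B w v H k x k' z ↔ n ≤ z) : cnt B w v H k x k' = sz B w v k' - n := by
  unfold cnt
  have : ((Finset.range (sz B w v k')).filter (fun y => A2 B w v H k x k' y)) =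
      Finset.Ico n (sz B w v k') := by
    ext z
    simp only [Finset.mem_filter, Finset.mem_range, Finset.mem_Ico, h z]
    tauto
  rw [this, Nat.card_Ico]

open Classical in
lemma cnt_hn {p B w v m D : ℕ} {H : SimpleGraph (Fin w)} (hHN : S_HN) (hP : Par p B w v m D H)
    {k k' : Kd p} {x : ℕ} (c q : ℕ) (hc : c < w) (hq : (q + 1) * w ≤ sz B w v k')
    (h : ∀ z, A2 B w v H k x k' z ↔ (q = z / w ∧ Hn H c (z % w))) :
    cnt B w v H k x k' = D := by
  have := hHN w D H hP.hreg c q (sz B w v k') hc hq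
  unfold cnt
  rw [← this]
  exact fc fun z _ => h z

theorem t_DB (hHN : S_HN) : S_DB := by
  intro p B w v m D H hP i y hy
  have hw := hP.hw
  have h2pv : (2 * p + 3) * w ≤ 2 * w * v := by
    have h1 : 2 * p + 3 ≤ 2 * v := by have := hP.hv; omega
    calc (2 * p + 3) * w ≤ (2 * v) * w := Nat.mul_le_mul_right _ h1
      _ = 2 * w * v := by ring
  have hp : 1 ≤ p := by have := i.2; omega
  have u0 : cnt B w v H (.b i) y .u0 = 0 := cnt_zero (by intro z; simp [A2, E])
  have u1 : cnt B w v H (.b i) y .u1 = 0 := cnt_zero (by intro z; simp [A2, E])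
  have l1 : cnt B w v H (.b i) y .l1 = 0 := cnt_zero (by intro z; simp [A2, E])
  have l2 : cnt B w v H (.b i) y .l2 = 0 := cnt_zero (by intro z; simp [A2, E])
  have ai : cnt B w v H (.b i) y (.a i) = 2 * B * w + w - y :=
    cnt_ge y (by intro z; simp [A2, E])
  have bi : cnt B w v H (.b i) y (.b i) = 0 := cnt_zero (by intro z; simp [A2, E])
  by_cases hwy : w ≤ y
  · -- `y` in a block
    set q : ℕ := y / w - 1 with hq
    have hyw : 1 ≤ y / w := (Nat.one_le_div_iff hw).2 hwy
    have hq1 : q + 1 = y / w := by omega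
    have hyB : y / w ≤ 2 * B := by
      have : y / w < 2 * B + 1 := by
        rw [Nat.div_lt_iff_lt_mul hw]
        calc y < 2 * B * w + w := hy
          _ = (2 * B + 1) * w := by ring
      omega
    have hc : y % w < w := Nat.mod_lt _ hw
    have hs1 : (q + 1) * w ≤ 2 * B * w := by
      rw [hq1]; exact Nat.mul_le_mul_right _ hyB
    have hs2 : (q + 1) * w ≤ 2 * B * w + w := by omega
    have hs3 : (y / w + 1) * w ≤ 2 * B * w + w := by
      calc (y / w + 1) * w ≤ (2 * B + 1) * w := Nat.mul_le_mul_right _ (by omega)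
        _ = 2 * B * w + w := by ring
    have key : ∀ z : ℕ, (z / w + 1 = y / w ∧ Hn H (z % w) (y % w)) ↔
        (q = z / w ∧ Hn H (y % w) (z % w)) := by
      intro z
      rw [Hn_symm H (z % w) (y % w)]
      constructor
      · rintro ⟨h1, h2⟩; exact ⟨by omega, h2⟩
      · rintro ⟨h1, h2⟩; exact ⟨by omega, h2⟩
    have rj : ∀ j : Fin 3, cnt B w v H (.b i) y (.r j) = D := by
      intro j
      refine cnt_hn hHN hP (y % w) q hc hs1 ?_
      intro z
      rw [← key z]
      simp [A2, E]
    have aj : ∀ j : Fin p, j ≠ i → cnt B w v H (.b i) y (.a j) = D := by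
      intro j hj
      refine cnt_hn hHN hP (y % w) q hc hs2 ?_
      intro z
      rw [← key z]
      simp [A2, E, hj]
    have bj : ∀ j : Fin p, j ≠ i → cnt B w v H (.b i) y (.b j) = D := by
      intro j hj
      refine cnt_hn hHN hP (y % w) (y / w) hc hs3 ?_
      intro z
      simp only [A2, E]
      rw [Hn_symm H (z % w) (y % w)]
      constructor
      · rintro (⟨_, h1, _, h2⟩ | ⟨_, h1, _, h2⟩)
        · exact ⟨h1, h2⟩
        · exact ⟨h1.symm, h2⟩
      · rintro ⟨h1, h2⟩
        exact Or.inl ⟨hj.symm, h1, hyw, h2⟩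
    have u2 : cnt B w v H (.b i) y .u2 = 0 := cnt_zero (by
      intro z
      simp only [A2, E, or_false]
      intro h
      omega)
    have sa : ∑ j : Fin p, cnt B w v H (.b i) y (.a j) = (2 * B * w + w - y) + (p - 1) * D := by
      rw [← Finset.add_sum_erase _ _ (Finset.mem_univ i), ai,
        Finset.sum_congr rfl (fun j hj => aj j (Finset.ne_of_mem_erase hj)), Finset.sum_const,
        Finset.card_erase_of_mem (Finset.mem_univ i), Finset.card_univ, Fintype.card_fin,
        smul_eq_mul]
    have sb : ∑ j : Fin p, cnt B w v H (.b i) y (.b j) = (p - 1) * D := by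
      rw [← Finset.add_sum_erase _ _ (Finset.mem_univ i), bi, zero_add,
        Finset.sum_congr rfl (fun j hj => bj j (Finset.ne_of_mem_erase hj)), Finset.sum_const,
        Finset.card_erase_of_mem (Finset.mem_univ i), Finset.card_univ, Fintype.card_fin,
        smul_eq_mul]
    rw [if_pos hwy, dg, rj 0, rj 1, rj 2, sa, sb, u0, u1, u2, l1, l2]
    obtain ⟨p', rfl⟩ : ∃ p', p = p' + 1 := ⟨p - 1, by omega⟩
    simp only [Nat.add_sub_cancel]
    ring
  · have hyw : y / w = 0 := Nat.div_eq_of_lt (not_le.1 hwy)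
    have rj : ∀ j : Fin 3, cnt B w v H (.b i) y (.r j) = 0 := by
      intro j
      refine cnt_zero ?_
      intro z
      simp only [A2, E, hyw, false_or]
      rintro ⟨h, _⟩
      exact absurd h (Nat.succ_ne_zero _)
    have aj : ∀ j : Fin p, j ≠ i → cnt B w v H (.b i) y (.a j) = 0 := by
      intro j hj
      refine cnt_zero ?_
      intro z
      simp [A2, E, hyw, hj]
    have bj : ∀ j : Fin p, cnt B w v H (.b i) y (.b j) = 0 := by
      intro j
      refine cnt_zero ?_
      intro z
      simp only [A2, E, hyw]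
      rintro (⟨_, _, h, _⟩ | ⟨_, h1, h, _⟩)
      · exact absurd h (by norm_num)
      · rw [h1] at h
        exact absurd h (by norm_num)
    have u2 : cnt B w v H (.b i) y .u2 = (2 * p + 3) * w := by
      have h := cnt_ge (p := p) (B := B) (w := w) (v := v) (H := H) (k := .b i) (k' := .u2)
        (x := y) (2 * w * v - (2 * p + 3) * w) (by
          intro z
          simp only [A2, E, or_false]
          constructor
          · rintro ⟨_, h⟩; omega
          · intro h; exact ⟨not_le.1 hwy, by omega⟩)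
      rw [h]
      simp only [sz]
      omega
    have sa : ∑ j : Fin p, cnt B w v H (.b i) y (.a j) = 2 * B * w + w - y := by
      rw [← Finset.add_sum_erase _ _ (Finset.mem_univ i), ai,
        Finset.sum_congr rfl (fun j hj => aj j (Finset.ne_of_mem_erase hj)), Finset.sum_const_zero,
        add_zero]
    have sb : ∑ j : Fin p, cnt B w v H (.b i) y (.b j) = 0 := by
      rw [Finset.sum_congr rfl (fun j _ => bj j), Finset.sum_const_zero]
    rw [if_neg hwy, dg, rj 0, rj 1, rj 2, sa, sb, u0, u1, u2, l1, l2]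
    ring

end Run7.h298.RO

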